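import Pool.Agent.Lib.MP_748296_nt.Interfaces

/-!
# MP_748296_nt : module A (helper40): binomial coefficients modulo `p^2`
-/

namespace Pool.Agent.Lib.MP_748296_nt.H40

open Finset Pool.Agent.Lib.MP_748296_nt

variable {p : ℕ} {B : Type} [CommRing B]

/-- `pi l = p / l` in `B`. -/
noncomputable def pi (p : ℕ) (B : Type) [CommRing B] (l : ℕ) : B := (p : B) * Ring.inverse (l : B)

/-- `pH m = p (1 + 1/2 + ... + 1/m)`. -/
noncomputable def pH (p : ℕ) (B : Type) [CommRing B] (m : ℕ) : B := ∑ l ∈ range m, pi p B (l + 1)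

lemma pi_mul (hB : RingP2 p B) {l : ℕ} (hl : ¬ p ∣ l) : pi p B l * (l : B) = p := by
  unfold pi
  rw [mul_assoc, Ring.inverse_mul_cancel _ (hB.unit l hl), mul_one]

lemma pi_eq_of_mul (hB : RingP2 p B) {l : ℕ} (hl : ¬ p ∣ l) {x : B} (hx : x * (l : B) = p) :
    x = pi p B l := by
  have h1 := pi_mul hB hl
  have : x * (l : B) = pi p B l * (l : B) := by rw [hx, h1]
  exact (hB.unit l hl).mul_right_cancel this

lemma p_mul_p (hB : RingP2 p B) : (p : B) * p = 0 := by
  have := hB.sq
  rwa [pow_two] at this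

lemma p_mul_pi (hB : RingP2 p B) (l : ℕ) : (p : B) * pi p B l = 0 := by
  unfold pi
  rw [← mul_assoc, p_mul_p hB, zero_mul]

lemma pi_mul_pi (hB : RingP2 p B) (l k : ℕ) : pi p B k * pi p B l = 0 := by
  unfold pi
  have := p_mul_p hB
  calc _ = ((p : B) * p) * (Ring.inverse (k : B) * Ring.inverse (l : B)) := by ring
    _ = 0 := by rw [this, zero_mul]

lemma p_mul_pH (hB : RingP2 p B) (m : ℕ) : (p : B) * pH p B m = 0 := by
  unfold pH
  rw [mul_sum]
  exact sum_eq_zero fun l _ => p_mul_pi hB _

lemma pH_mul_pH (hB : RingP2 p B) (m k : ℕ) : pH p B m * pH p B k = 0 := by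
  unfold pH
  rw [sum_mul_sum]
  exact sum_eq_zero fun l _ => sum_eq_zero fun l' _ => pi_mul_pi hB _ _

lemma pH_succ (m : ℕ) : pH p B (m + 1) = pH p B m + pi p B (m + 1) := by
  unfold pH
  rw [sum_range_succ]

lemma pH_zero : pH p B 0 = 0 := by simp [pH]

/-- reflection -/
lemma pi_refl (hB : RingP2 p B) {l k : ℕ} (hl : ¬ p ∣ l) (hlk : l + k = p) :
    pi p B k = - pi p B l := by
  have hk : ¬ p ∣ k := by
    intro h
    apply hl
    have : p ∣ l + k := by rw [hlk]
    exact (Nat.dvd_add_left h).mp this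
  symm
  apply pi_eq_of_mul hB hk
  have e : (k : B) = p - l := by
    rw [eq_sub_iff_add_eq]
    rw [← hlk]; push_cast; ring
  rw [e, neg_mul, mul_sub, pi_mul hB hl]
  have := p_mul_pi hB l
  linear_combination -this

lemma not_dvd_of_lt {l : ℕ} (h0 : 0 < l) (h1 : l < p) : ¬ p ∣ l := Nat.not_dvd_of_pos_of_lt h0 h1

/-- general expansion of a product. -/
lemma prod_expand {ι : Type} (s : Finset ι) (f g : ι → B)
    (hg : ∀ i ∈ s, ∀ j ∈ s, g i * g j = 0) :
    ∏ i ∈ s, (f i * (1 + g i)) = (∏ i ∈ s, f i) * (1 + ∑ i ∈ s, g i) := by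
  classical
  induction s using Finset.induction_on with
  | empty => simp
  | insert a s ha ih =>
    rw [prod_insert ha, prod_insert ha, sum_insert ha,
      ih (fun i hi j hj => hg i (mem_insert_of_mem hi) j (mem_insert_of_mem hj))]
    have h0 : g a * ∑ i ∈ s, g i = 0 := by
      rw [mul_sum]
      exact sum_eq_zero fun i hi => hg a (mem_insert_self _ _) i (mem_insert_of_mem hi)
    linear_combination (f a * ∏ i ∈ s, f i) * h0

/-- `∏_{l<m} (l + 1 + c p) = m! (1 + c pH m)` -/
lemma prod_add (hB : RingP2 p B) {m : ℕ} (hm : m < p) (c : B) :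
    ∏ l ∈ range m, ((l : B) + 1 + c * p) = (m.factorial : B) * (1 + c * pH p B m) := by
  induction m with
  | zero => simp [pH]
  | succ m ih =>
    rw [prod_range_succ, ih (by omega), pH_succ, Nat.factorial_succ]
    have h1 := pi_mul hB (not_dvd_of_lt (p := p) (Nat.succ_pos m) hm)
    have h2 := p_mul_pH hB m
    push_cast at h1 ⊢
    have h3 : pi p B (m+1) * ((m : B) + 1) = p := h1
    linear_combination (m.factorial : B) * c * c * h2 - (m.factorial : B) * c * h3

lemma pH_add (m k : ℕ) : pH p B (m + k) = pH p B m + ∑ l ∈ range k, pi p B (m + l + 1) := by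
  unfold pH
  rw [sum_range_add]

lemma isUnit_natCast_of_lt (hB : RingP2 p B) {l : ℕ} (h0 : 0 < l) (h1 : l < p) : IsUnit (l : B) :=
  hB.unit l (not_dvd_of_lt h0 h1)

lemma isUnit_factorial (hp : p.Prime) (hB : RingP2 p B) {m : ℕ} (hm : m < p) :
    IsUnit (m.factorial : B) := by
  apply hB.unit
  rw [hp.dvd_factorial]
  omega

lemma pH_pred (_hp : p.Prime) (h3 : 3 < p) (hB : RingP2 p B) : pH p B (p - 1) = 0 := by
  have h1 : pH p B (p - 1) = - pH p B (p - 1) := by
    conv_lhs => unfold pH
    rw [← sum_range_reflect]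
    unfold pH
    rw [← sum_neg_distrib]
    apply sum_congr rfl
    intro l hl
    rw [mem_range] at hl
    apply pi_refl hB (not_dvd_of_lt (by omega) (by omega))
    omega
  have h2 : (2 : B) * pH p B (p - 1) = 0 := by linear_combination h1
  have hu : IsUnit ((2 : ℕ) : B) := isUnit_natCast_of_lt hB (by omega) (by omega)
  have : ((2 : ℕ) : B) * pH p B (p - 1) = 0 := by push_cast; exact h2
  exact (hu.mul_right_eq_zero).mp this

lemma pH_refl (hp : p.Prime) (h3 : 3 < p) (hB : RingP2 p B) {m k : ℕ} (hmk : m + k + 1 = p) :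
    pH p B m = pH p B k := by
  have h1 := pH_pred hp h3 hB
  have h2 : p - 1 = m + k := by omega
  rw [h2, pH_add] at h1
  have h4 : ∑ l ∈ range k, pi p B (m + l + 1) = - pH p B k := by
    rw [← sum_range_reflect]
    unfold pH
    rw [← sum_neg_distrib]
    apply sum_congr rfl
    intro l hl
    rw [mem_range] at hl
    apply pi_refl hB (not_dvd_of_lt (by omega) (by omega))
    omega
  rw [h4] at h1
  linear_combination h1

/-- A1 -/
theorem a1 : A1Statement := by
  intro p hp h3 B _ hB
  obtain ⟨m, rfl⟩ : ∃ m, p = m + 2 := ⟨p - 2, by omega⟩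
  rw [two_mul, Nat.add_choose_eq, Nat.sum_antidiagonal_eq_sum_range_succ_mk]
  push_cast
  rw [sum_range_succ, sum_range_succ']
  have : ∀ k ∈ range (m + 1), (((m + 2).choose (k + 1) : ℕ) : B) * (((m + 2).choose (m + 2 - (k + 1)) : ℕ) : B) = 0 := by
    intro k hk
    rw [mem_range] at hk
    rw [Nat.choose_symm (by omega)]
    obtain ⟨c, hc⟩ := hp.dvd_choose_self (k := k + 1) (by omega) (by omega)
    have h := hB.sq
    rw [hc]
    push_cast at h ⊢
    linear_combination (c : B) ^ 2 * h
  rw [sum_eq_zero this]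
  simp
  norm_num

lemma choose_mul_factorial_eq_prod (a m : ℕ) :
    (a + m).choose m * m.factorial = ∏ l ∈ range m, (l + 1 + a) := by
  have h := Nat.ascFactorial_eq_factorial_mul_choose a m
  rw [mul_comm, ← h, Nat.ascFactorial_eq_prod_range]
  apply prod_congr rfl
  intro i _
  ring

lemma choose_two_p (hp : p.Prime) (hB : RingP2 p B) {m : ℕ} (hm : m < p) :
    (((2 * p + m).choose m : ℕ) : B) = 1 + 2 * pH p B m := by
  apply (isUnit_factorial hp hB hm).mul_right_cancel
  have h := prod_add hB hm 2
  have h2 := congrArg (Nat.cast : ℕ → B) (choose_mul_factorial_eq_prod (2 * p) m)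
  push_cast at h2
  rw [h2, h]
  ring

lemma prod_range_three_mul (F : ℕ → B) (n : ℕ) :
    ∏ l ∈ range (3 * n), F l = ∏ i ∈ range n, (F (3 * i) * F (3 * i + 1) * F (3 * i + 2)) := by
  induction n with
  | zero => simp
  | succ n ih =>
    rw [show 3 * (n + 1) = 3 * n + 1 + 1 + 1 by ring, prod_range_succ, prod_range_succ,
      prod_range_succ, ih, prod_range_succ]
    ring

lemma even_of_prime (hp : p.Prime) (_h3 : 3 < p) {n : ℕ} (hn : p = 3 * n + 1) : Even n := by
  have h := hp.eq_two_or_odd'
  rcases h with h | h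
  · omega
  · rw [hn] at h
    by_contra hne
    rw [Nat.not_even_iff_odd] at hne
    obtain ⟨a, ha⟩ := h
    obtain ⟨b, hb⟩ := hne
    omega

lemma factorial_cast (m : ℕ) : (m.factorial : B) = ∏ l ∈ range m, ((l : B) + 1) := by
  induction m with
  | zero => simp
  | succ m ih => rw [prod_range_succ, Nat.factorial_succ, ← ih]; push_cast; ring

/-- `3 (1 - pH n) = 27^n (3 - pH n)`. -/
lemma key_factorial (hp : p.Prime) (h3 : 3 < p) {n : ℕ} (hn : p = 3 * n + 1) (hB : RingP2 p B) :
    3 * (1 - pH p B n) = 27 ^ n * (3 - pH p B n) := by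
  have hpB : (p : B) = 3 * n + 1 := by rw [hn]; push_cast; ring
  have hev := even_of_prime hp h3 hn
  have hu3 : IsUnit (3 : B) := by
    have := isUnit_natCast_of_lt hB (l := 3) (by omega) (by omega)
    simpa using this
  obtain ⟨t, ht⟩ : ∃ t : B, 3 * t = 1 := hu3.exists_right_inv
  -- first evaluation
  have e1 : ((3 * n).factorial : B) = ((2 * n).factorial : B) * ((n.factorial : B) * (1 - pH p B n)) := by
    rw [factorial_cast (3 * n), show 3 * n = 2 * n + n by ring, prod_range_add, ← factorial_cast]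
    congr 1
    have h := prod_add hB (m := n) (by omega) (-1)
    rw [← prod_range_reflect]
    rw [show (1 - pH p B n) = (1 + (-1) * pH p B n) by ring, ← h]
    have hs : ∏ l ∈ range n, (-1 : B) = 1 := by rw [prod_const, card_range, hev.neg_one_pow]
    calc _ = ∏ l ∈ range n, ((-1 : B) * ((l : B) + 1 + -1 * p)) := by
          apply prod_congr rfl
          intro l hl
          rw [mem_range] at hl
          have : ((n - 1 - l : ℕ) : B) = n - 1 - l := by
            rw [Nat.cast_sub (by omega), Nat.cast_sub (by omega)]; push_cast; ring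
          push_cast
          rw [this, hpB]; ring
      _ = _ := by rw [prod_mul_distrib, hs, one_mul]
  have e2 : ((3 * n).factorial : B) = 27 ^ n * (n.factorial : B) * (((2 * n).factorial : B) * (1 - t * pH p B (2 * n))) := by
    have h2n := prod_add hB (m := 2 * n) (by omega) (-t)
    rw [two_mul, prod_range_add] at h2n
    rw [factorial_cast (3 * n), ← prod_range_reflect]
    have hs3 : ∏ l ∈ range (3 * n), (-1 : B) = 1 := by
      rw [prod_const, card_range, (hev.mul_left 3).neg_one_pow]
    have hs : ∏ l ∈ range n, (-1 : B) = 1 := by rw [prod_const, card_range, hev.neg_one_pow]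
    have c1 : ∏ l ∈ range (3 * n), ((((3 * n - 1 - l : ℕ) : ℕ) : B) + 1) = ∏ l ∈ range (3 * n), ((l : B) + 1 - p) := by
      calc _ = ∏ l ∈ range (3 * n), ((-1 : B) * ((l : B) + 1 - p)) := by
            apply prod_congr rfl
            intro l hl
            rw [mem_range] at hl
            have : ((3 * n - 1 - l : ℕ) : B) = 3 * n - 1 - l := by
              rw [Nat.cast_sub (by omega), Nat.cast_sub (by omega)]; push_cast; ring
            rw [this, hpB]; ring
        _ = _ := by rw [prod_mul_distrib, hs3, one_mul]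
    rw [c1, prod_range_three_mul, prod_mul_distrib, prod_mul_distrib]
    have d1 : ∏ i ∈ range n, (((3 * i : ℕ) : B) + 1 - p) = 3 ^ n * (n.factorial : B) := by
      rw [factorial_cast n, ← prod_range_reflect (fun l => (l : B) + 1)]
      calc _ = ∏ i ∈ range n, ((-1 : B) * (3 * (((n - 1 - i : ℕ) : B) + 1))) := by
            apply prod_congr rfl
            intro l hl
            rw [mem_range] at hl
            have : ((n - 1 - l : ℕ) : B) = n - 1 - l := by
              rw [Nat.cast_sub (by omega), Nat.cast_sub (by omega)]; push_cast; ring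
            rw [this, hpB]; push_cast; ring
        _ = _ := by rw [prod_mul_distrib, hs, one_mul, prod_mul_distrib, prod_const, card_range]
    have d3 : ∏ i ∈ range n, (((3 * i + 2 : ℕ) : B) + 1 - p) = 3 ^ n * ∏ l ∈ range n, ((l : B) + 1 + -t * p) := by
      calc _ = ∏ i ∈ range n, (3 * ((i : B) + 1 + -t * p)) := by
            apply prod_congr rfl
            intro l hl
            push_cast
            linear_combination (p : B) * ht
        _ = _ := by rw [prod_mul_distrib, prod_const, card_range]
    have d2 : ∏ i ∈ range n, (((3 * i + 1 : ℕ) : B) + 1 - p) = 3 ^ n * ∏ l ∈ range n, (((n + l : ℕ) : B) + 1 + -t * p) := by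
      calc _ = ∏ i ∈ range n, ((-1 : B) * (3 * (((n + (n - 1 - i) : ℕ) : B) + 1 + -t * p))) := by
            apply prod_congr rfl
            intro l hl
            rw [mem_range] at hl
            have : ((n + (n - 1 - l) : ℕ) : B) = n + (n - 1 - l) := by
              rw [Nat.cast_add, Nat.cast_sub (by omega), Nat.cast_sub (by omega)]; push_cast; ring
            rw [this]
            push_cast
            linear_combination (-(p : B)) * ht + 2 * (-1) * hpB
        _ = ∏ i ∈ range n, (3 * (((n + (n - 1 - i) : ℕ) : B) + 1 + -t * p)) := by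
            rw [prod_mul_distrib, hs, one_mul]
        _ = ∏ i ∈ range n, (3 * (((n + i : ℕ) : B) + 1 + -t * p)) :=
            prod_range_reflect (fun i => 3 * (((n + i : ℕ) : B) + 1 + -t * p)) n
        _ = _ := by rw [prod_mul_distrib, prod_const, card_range]
    rw [d1, d2, d3]
    rw [show n + n = 2 * n by ring] at h2n
    have : (27 : B) ^ n = 3 ^ n * 3 ^ n * 3 ^ n := by rw [← mul_pow, ← mul_pow]; norm_num
    rw [this]
    linear_combination (3 ^ n * 3 ^ n * 3 ^ n * (n.factorial : B)) * h2n
  have hrefl : pH p B (2 * n) = pH p B n := pH_refl hp h3 hB (by omega)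
  rw [hrefl] at e2
  have h27 : 1 - pH p B n = 27 ^ n * (1 - t * pH p B n) := by
    apply ((isUnit_factorial hp hB (m := n) (by omega)).mul (isUnit_factorial hp hB (m := 2 * n) (by omega))).mul_left_cancel
    linear_combination e2 - e1
  linear_combination 3 * h27 - 27 ^ n * pH p B n * ht

/-- `a^(p-1) - 1` is a multiple of `p` in `B`. -/
lemma exists_fermat (hp : p.Prime) (a : ℕ) (ha : ¬ p ∣ a) :
    ∃ c : B, (a : B) ^ (p - 1) = 1 + (p : B) * c := by
  have h1 : IsCoprime (a : ℤ) (p : ℤ) := by
    rw [Nat.isCoprime_iff_coprime]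
    exact ((Nat.Prime.coprime_iff_not_dvd hp).mpr ha).symm
  have h2 := Int.ModEq.pow_card_sub_one_eq_one hp h1
  obtain ⟨c, hc⟩ := h2.symm.dvd
  refine ⟨(c : B), ?_⟩
  have h3 : (a : ℤ) ^ (p - 1) = 1 + p * c := by linear_combination hc
  have h4 := congrArg (Int.cast : ℤ → B) h3
  push_cast at h4
  exact h4

/-- `2 pH n = -3 (3^(p-1) - 1)` -/
lemma two_pH (hp : p.Prime) (h3 : 3 < p) {n : ℕ} (hn : p = 3 * n + 1) (hB : RingP2 p B) :
    2 * pH p B n = - (3 * (3 ^ (p - 1) - 1)) := by
  have h := key_factorial hp h3 hn hB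
  obtain ⟨c, hc⟩ := exists_fermat (B := B) hp 3 (not_dvd_of_lt (by omega) h3)
  have h27 : (27 : B) ^ n = 3 ^ (p - 1) := by
    rw [show p - 1 = 3 * n by omega, pow_mul]; norm_num
  push_cast at hc
  rw [h27, hc] at h
  rw [hc]
  have h0 := p_mul_pH hB n
  linear_combination -h + c * h0

/-- A2 -/
theorem a2 : A2Statement := by
  intro p n hp h3 hn B _ hB
  have h := two_pH hp h3 hn hB
  refine ⟨?_, ?_⟩
  · rw [choose_two_p hp hB (by omega)]
    linear_combination h
  · rw [choose_two_p hp hB (by omega), pH_refl hp h3 hB (m := 2 * n) (k := n) (by omega)]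
    linear_combination h

/-- A3 -/
theorem a3 : A3Statement := by
  intro p n hp h3 hn B _ hB
  have hnat : (2 * (p + n)).choose (p + n) * (∏ l ∈ range n, (l + 1 + p)) ^ 2
      = (2 * p).choose p * ∏ l ∈ range (2 * n), (l + 1 + 2 * p) := by
    have f1 : (p + n).factorial = p.factorial * ∏ l ∈ range n, (l + 1 + p) := by
      rw [← choose_mul_factorial_eq_prod p n]
      have := Nat.add_choose_mul_factorial_mul_factorial p n
      linarith
    have f2 : (2 * (p + n)).factorial = (2 * p).factorial * ∏ l ∈ range (2 * n), (l + 1 + 2 * p) := by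
      rw [← choose_mul_factorial_eq_prod (2 * p) (2 * n)]
      have := Nat.add_choose_mul_factorial_mul_factorial (2 * p) (2 * n)
      rw [mul_add]
      linarith
    have g1 : (2 * (p + n)).choose (p + n) * (p + n).factorial * (p + n).factorial = (2 * (p + n)).factorial := by
      have := Nat.add_choose_mul_factorial_mul_factorial (p + n) (p + n)
      rw [two_mul]; exact this
    have g2 : (2 * p).choose p * p.factorial * p.factorial = (2 * p).factorial := by
      have := Nat.add_choose_mul_factorial_mul_factorial p p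
      rw [two_mul]; exact this
    have hpos : 0 < p.factorial * p.factorial := Nat.mul_pos (Nat.factorial_pos _) (Nat.factorial_pos _)
    apply Nat.eq_of_mul_eq_mul_left hpos
    rw [f2, ← g2, f1] at g1
    linarith
  have h := congrArg (Nat.cast : ℕ → B) hnat
  push_cast at h
  have h1 := a1 p hp h3 B hB
  have hp1 := prod_add hB (m := n) (by omega) 1
  have hp2 := prod_add hB (m := 2 * n) (by omega) 2
  rw [one_mul] at hp1
  rw [hp1, hp2, h1] at h
  have hrefl : pH p B (2 * n) = pH p B n := pH_refl hp h3 hB (by omega)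
  rw [hrefl] at h
  have hc : ((2 * n).factorial : B) = ((2 * n).choose n : B) * (n.factorial : B) ^ 2 := by
    have := Nat.add_choose_mul_factorial_mul_factorial n n
    rw [two_mul, ← this]; push_cast; ring
  rw [hc] at h
  have hu : IsUnit (n.factorial : B) := isUnit_factorial hp hB (by omega)
  apply (hu.mul hu).mul_left_cancel
  have hpp := pH_mul_pH hB n n
  have hinv : (1 + 2 * pH p B n) * (1 - 2 * pH p B n) = 1 := by linear_combination (-4) * hpp
  have h' : ((2 * (p + n)).choose (p + n) : B) * (n.factorial : B) ^ 2 * (1 + 2 * pH p B n)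
      = 2 * ((2 * n).choose n : B) * (n.factorial : B) ^ 2 * (1 + 2 * pH p B n) := by
    linear_combination h - ((2 * (p + n)).choose (p + n) : B) * (n.factorial : B) ^ 2 * hpp
  linear_combination (1 - 2 * pH p B n) * h' - (((2 * (p + n)).choose (p + n) : B) * (n.factorial : B) ^ 2 - 2 * ((2 * n).choose n : B) * (n.factorial : B) ^ 2) * hinv

/-- A5 -/
theorem a5 : A5Statement := by
  intro p n N hp h3 hn hN
  have : Fact p.Prime := ⟨hp⟩
  have hev := even_of_prime hp h3 hn
  have hu : ∀ m : ℕ, m < p → (m.factorial : ZMod p) ≠ 0 := by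
    intro m hm h0
    rw [ZMod.natCast_eq_zero_iff, hp.dvd_factorial] at h0
    omega
  have e1 : ((N.choose n : ℕ) : ZMod p) * (n.factorial : ZMod p) = ∏ i ∈ range n, ((N : ZMod p) - i) := by
    have h := Nat.descFactorial_eq_factorial_mul_choose N n
    rw [Nat.descFactorial_eq_prod_range] at h
    have h2 := congrArg (Nat.cast : ℕ → ZMod p) h
    push_cast at h2
    rw [mul_comm, ← h2]
    apply prod_congr rfl
    intro i hi
    rw [mem_range] at hi
    rw [Nat.cast_sub (by omega)]
  have e2 : ((N.choose n : ℕ) : ZMod p) * (n.factorial : ZMod p) * 2 ^ n = ∏ i ∈ range n, (2 * (i : ZMod p) + 1) := by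
    rw [e1]
    have hs : ∏ l ∈ range n, (-1 : ZMod p) = 1 := by rw [prod_const, card_range, hev.neg_one_pow]
    have hs2 : ∏ l ∈ range n, (2 : ZMod p) = 2 ^ n := by rw [prod_const, card_range]
    rw [← hs2, ← prod_mul_distrib]
    calc _ = ∏ i ∈ range n, ((-1) * (2 * (i : ZMod p) + 1)) := by
          apply prod_congr rfl
          intro i _
          have := congrArg (Nat.cast : ℕ → ZMod p) hN
          push_cast at this
          rw [ZMod.natCast_self] at this
          linear_combination (-1 : ZMod p) * this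
      _ = _ := by rw [prod_mul_distrib, hs, one_mul]
  have e3 : ∀ m : ℕ, ((2 * m).factorial : ZMod p) = 2 ^ m * (m.factorial : ZMod p) * ∏ i ∈ range m, (2 * (i : ZMod p) + 1) := by
    intro m
    induction m with
    | zero => simp
    | succ m ih =>
      rw [show 2 * (m + 1) = 2 * m + 1 + 1 by ring, Nat.factorial_succ, Nat.factorial_succ, prod_range_succ,
        Nat.factorial_succ]
      push_cast
      rw [ih]; ring
  have hc : ((2 * n).factorial : ZMod p) = ((2 * n).choose n : ZMod p) * (n.factorial : ZMod p) ^ 2 := by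
    have := Nat.add_choose_mul_factorial_mul_factorial n n
    rw [two_mul, ← this]; push_cast; ring
  have h0 := hu n (by omega)
  have h00 : (n.factorial : ZMod p) ^ 2 ≠ 0 := pow_ne_zero _ h0
  apply mul_right_cancel₀ h00
  rw [← hc, e3, ← e2]
  have : (4 : ZMod p) ^ n = 2 ^ n * 2 ^ n := by rw [← mul_pow]; norm_num
  rw [this]; ring

/-! ### A4 -/

/-- partial fractions over `ℚ` -/
lemma pf_rat (N : ℕ) : ∀ x : ℚ, 0 < x →
    ∑ j ∈ range (N + 1), ((-1) ^ j * (N.choose j : ℚ)) / (3 * j + x)
      = (N.factorial : ℚ) * 3 ^ N / ∏ i ∈ range (N + 1), (3 * (i : ℚ) + x) := by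
  induction N with
  | zero => intro x hx; simp
  | succ N ih =>
    intro x hx
    have h1 := ih x hx
    have h2 := ih (x + 3) (by linarith)
    have e1 : ∑ j ∈ range (N + 1 + 1), ((-1) ^ j * ((N + 1).choose j : ℚ)) / (3 * j + x)
        = ∑ j ∈ range (N + 1), ((-1) ^ j * (N.choose j : ℚ)) / (3 * j + x)
          - ∑ j ∈ range (N + 1), ((-1) ^ j * (N.choose j : ℚ)) / (3 * j + (x + 3)) := by
      rw [sum_range_succ' _ (N + 1)]
      have e2 : ∑ j ∈ range (N + 1), ((-1) ^ j * (N.choose j : ℚ)) / (3 * j + x)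
          = ∑ j ∈ range (N + 1), ((-1) ^ (j + 1) * (N.choose (j + 1) : ℚ)) / (3 * ((j + 1 : ℕ) : ℚ) + x)
            + 1 / x := by
        have := sum_range_succ' (fun j => ((-1) ^ j * (N.choose j : ℚ)) / (3 * j + x)) (N + 1)
        rw [sum_range_succ] at this
        rw [Nat.choose_succ_self] at this
        simp only [Nat.cast_zero, mul_zero, zero_div, add_zero, pow_zero, Nat.choose_zero_right,
          Nat.cast_one, mul_one, zero_add] at this
        exact this
      rw [e2, add_sub_right_comm, ← sum_sub_distrib]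
      congr 1
      · apply sum_congr rfl
        intro j _
        rw [Nat.choose_succ_succ]
        push_cast
        ring
      · simp
    rw [e1, h1, h2]
    have e3 : ∏ i ∈ range (N + 1), (3 * (i : ℚ) + x) = (∏ i ∈ range N, (3 * (i : ℚ) + (x + 3))) * x := by
      rw [prod_range_succ']
      simp only [Nat.cast_zero, mul_zero, zero_add]
      congr 1
      apply prod_congr rfl
      intro i _
      push_cast; ring
    have e4 : ∏ i ∈ range (N + 1 + 1), (3 * (i : ℚ) + x)
        = (∏ i ∈ range N, (3 * (i : ℚ) + (x + 3))) * (3 * N + (x + 3)) * x := by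
      rw [prod_range_succ']
      simp only [Nat.cast_zero, mul_zero, zero_add]
      congr 1
      rw [← prod_range_succ]
      apply prod_congr rfl
      intro i _
      push_cast; ring
    rw [e3, e4, prod_range_succ]
    have hP : (∏ i ∈ range N, (3 * (i : ℚ) + (x + 3))) ≠ 0 := by
      apply ne_of_gt
      apply prod_pos
      intro i _
      positivity
    have hx0 : x ≠ 0 := hx.ne'
    have hN : (3 * (N : ℚ) + (x + 3)) ≠ 0 := by positivity
    rw [Nat.factorial_succ]
    push_cast
    field_simp
    ring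

/-- cleared form over any commutative ring -/
lemma pf_ring (N : ℕ) :
    ∑ j ∈ range (N + 1), ((N.choose j : B) * (-1) ^ j) * ∏ i ∈ (range (N + 1)).erase j, (3 * (i : B) + 1)
      = (N.factorial : B) * 3 ^ N := by
  have hq : ∑ j ∈ range (N + 1), ((N.choose j : ℚ) * (-1) ^ j) * ∏ i ∈ (range (N + 1)).erase j, (3 * (i : ℚ) + 1)
      = (N.factorial : ℚ) * 3 ^ N := by
    have h := pf_rat N 1 one_pos
    have hP : (∏ i ∈ range (N + 1), (3 * (i : ℚ) + 1)) ≠ 0 := by
      apply ne_of_gt
      apply prod_pos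
      intro i _
      positivity
    rw [eq_div_iff hP, sum_mul] at h
    rw [← h]
    apply sum_congr rfl
    intro j hj
    rw [← mul_prod_erase _ _ hj]
    have : (3 * (j : ℚ) + 1) ≠ 0 := by positivity
    field_simp
  have hz : ∑ j ∈ range (N + 1), ((N.choose j : ℤ) * (-1) ^ j) * ∏ i ∈ (range (N + 1)).erase j, (3 * (i : ℤ) + 1)
      = (N.factorial : ℤ) * 3 ^ N := by
    have : Function.Injective (Int.cast : ℤ → ℚ) := Int.cast_injective
    apply this
    push_cast
    exact hq
  have := congrArg (Int.cast : ℤ → B) hz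
  push_cast at this
  exact this

lemma prod_erase_split (f : ℕ → B) (n m : ℕ) :
    ∏ i ∈ (range (n + 1 + m)).erase n, f i = (∏ i ∈ range n, f i) * ∏ i ∈ range m, f (n + 1 + i) := by
  induction m with
  | zero =>
    rw [add_zero, range_add_one, erase_insert (by simp)]; simp
  | succ m ih =>
    rw [← add_assoc, range_add_one, erase_insert_of_ne (by omega), prod_insert (by simp), ih, prod_range_succ]
    ring

lemma prod_D (hp : p.Prime) (h3 : 3 < p) {n m : ℕ} (hn : p = 3 * n + 1) (hm : m < p) (hB : RingP2 p B)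
    {t : B} (ht : 3 * t = 1) :
    ∏ i ∈ (range (n + 1 + m)).erase n, (3 * (i : B) + 1)
      = 3 ^ (n + m) * ((n.factorial : B) * (m.factorial : B)) * (1 + t * (pH p B m - pH p B n)) := by
  have hpB : (p : B) = 3 * n + 1 := by rw [hn]; push_cast; ring
  have hev := even_of_prime hp h3 hn
  rw [prod_erase_split]
  have h1 : ∏ i ∈ range n, (3 * (i : B) + 1) = 3 ^ n * ∏ l ∈ range n, ((l : B) + 1 + -t * p) := by
    rw [← prod_range_reflect]
    have hs : ∏ l ∈ range n, (-1 : B) = 1 := by rw [prod_const, card_range, hev.neg_one_pow]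
    calc _ = ∏ l ∈ range n, ((-1) * (3 * ((l : B) + 1 + -t * p))) := by
          apply prod_congr rfl
          intro l hl
          rw [mem_range] at hl
          have : ((n - 1 - l : ℕ) : B) = n - 1 - l := by
            rw [Nat.cast_sub (by omega), Nat.cast_sub (by omega)]; push_cast; ring
          rw [this]
          linear_combination (-(p : B)) * ht - hpB
      _ = _ := by rw [prod_mul_distrib, hs, one_mul, prod_mul_distrib, prod_const, card_range]
  have h2 : ∏ i ∈ range m, (3 * ((n + 1 + i : ℕ) : B) + 1) = 3 ^ m * ∏ l ∈ range m, ((l : B) + 1 + t * p) := by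
    calc _ = ∏ l ∈ range m, (3 * ((l : B) + 1 + t * p)) := by
          apply prod_congr rfl
          intro l hl
          push_cast
          linear_combination (-(p : B)) * ht - hpB
      _ = _ := by rw [prod_mul_distrib, prod_const, card_range]
  rw [h1, h2, prod_add hB (by omega) (-t), prod_add hB hm t]
  have h3 := pH_mul_pH hB n m
  rw [pow_add]
  linear_combination (-(3 ^ n * 3 ^ m * (n.factorial : B) * (m.factorial : B) * t * t)) * h3

lemma two_mul_pi_two_mul (hB : RingP2 p B) {k : ℕ} (hk : ¬ p ∣ k) (hk2 : ¬ p ∣ 2 * k) :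
    2 * pi p B (2 * k) = pi p B k := by
  apply pi_eq_of_mul hB hk
  have := pi_mul hB hk2
  push_cast at this
  linear_combination this

lemma sum_pi_even (hB : RingP2 p B) {m : ℕ} (hm : 2 * m < p) :
    2 * ∑ l ∈ range m, pi p B (2 * l + 2) = pH p B m := by
  unfold pH
  rw [mul_sum]
  apply sum_congr rfl
  intro l hl
  rw [mem_range] at hl
  have := two_mul_pi_two_mul hB (k := l + 1) (not_dvd_of_lt (by omega) (by omega)) (not_dvd_of_lt (by omega) (by omega))
  rw [← this]
  ring_nf

lemma sum_range_two_mul (f : ℕ → B) (m : ℕ) :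
    ∑ l ∈ range (2 * m), f l = ∑ l ∈ range m, f (2 * l) + ∑ l ∈ range m, f (2 * l + 1) := by
  induction m with
  | zero => simp
  | succ m ih =>
    rw [show 2 * (m + 1) = 2 * m + 1 + 1 by ring, sum_range_succ, sum_range_succ, ih, sum_range_succ,
      sum_range_succ]
    ring

/-- `pH_{3m} = pH_m - pH_{2m}`, `p = 6 m + 1`. -/
lemma pH_three (hp : p.Prime) (h3 : 3 < p) {m : ℕ} (hm : p = 6 * m + 1) (hB : RingP2 p B) :
    pH p B (3 * m) = pH p B m - pH p B (2 * m) := by
  have e : pH p B (3 * m) = pH p B (2 * m) + ∑ l ∈ range m, (-2) * pi p B (2 * l + 1) := by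
    rw [show 3 * m = 2 * m + m by ring, pH_add, ← sum_range_reflect]
    congr 1
    apply sum_congr rfl
    intro l hl
    rw [mem_range] at hl
    have h1 := two_mul_pi_two_mul hB (k := 3 * m - l) (not_dvd_of_lt (by omega) (by omega)) (not_dvd_of_lt (by omega) (by omega))
    have h2 : pi p B (2 * (3 * m - l)) = - pi p B (2 * l + 1) :=
      pi_refl hB (not_dvd_of_lt (by omega) (by omega)) (by omega)
    rw [show 2 * m + (m - 1 - l) + 1 = 3 * m - l by omega, ← h1, h2]
    ring
  have e2 : pH p B (2 * m) = ∑ l ∈ range m, pi p B (2 * l + 1) + ∑ l ∈ range m, pi p B (2 * l + 2) := by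
    unfold pH
    rw [sum_range_two_mul]
  have e3 := sum_pi_even hB (m := m) (by omega)
  rw [← mul_sum] at e
  linear_combination e + 2 * e2 + e3

/-- `p binom(p-1,k) = (-1)^k p` -/
lemma p_mul_choose (hp : p.Prime) (hB : RingP2 p B) (k : ℕ) (hk : k < p) :
    (p : B) * ((p - 1).choose k : B) = (-1) ^ k * p := by
  induction k with
  | zero => simp
  | succ k ih =>
    have h := ih (by omega)
    obtain ⟨c, hc⟩ := hp.dvd_choose_self (k := k + 1) (by omega) (by omega)
    have h1 : p.choose (k + 1) = (p - 1).choose k + (p - 1).choose (k + 1) := by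
      conv_lhs => rw [show p = (p - 1) + 1 by omega]
      exact Nat.choose_succ_succ _ _
    rw [hc] at h1
    have h2 := congrArg (Nat.cast : ℕ → B) h1
    push_cast at h2
    have h3 := p_mul_p hB
    rw [pow_succ]
    linear_combination (-(p : B)) * h2 + (c : B) * h3 - h

lemma choose_eq_pi (hp : p.Prime) (hB : RingP2 p B) {k : ℕ} (hk : k + 1 < p) :
    (p.choose (k + 1) : B) = (-1) ^ k * pi p B (k + 1) := by
  have h0 : ((-1 : B) ^ k) * (-1) ^ k = 1 := by rw [← mul_pow]; simp
  have h : (-1) ^ k * (p.choose (k + 1) : B) = pi p B (k + 1) := by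
    apply pi_eq_of_mul hB (not_dvd_of_lt (by omega) hk)
    have h1 := Nat.add_one_mul_choose_eq (p - 1) k
    rw [show p - 1 + 1 = p by omega] at h1
    have h2 := congrArg (Nat.cast : ℕ → B) h1
    push_cast at h2 ⊢
    have h3 := p_mul_choose hp hB k (by omega)
    linear_combination (-((-1 : B) ^ k)) * h2 + (-1) ^ k * h3 + (p : B) * h0
  rw [← h]
  linear_combination (-(p.choose (k + 1) : B)) * h0

lemma pH_half (hp : p.Prime) (h3 : 3 < p) {N : ℕ} (hN : p = 2 * N + 1) (hB : RingP2 p B) :
    - pH p B N = 4 ^ (p - 1) - 1 := by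
  have h1 : (2 : B) ^ p = 2 + ∑ k ∈ range (p - 1), (-1) ^ k * pi p B (k + 1) := by
    have h := Nat.sum_range_choose p
    have h' := congrArg (Nat.cast : ℕ → B) h
    push_cast at h'
    rw [← h', sum_range_succ]
    have : range p = range ((p - 1) + 1) := by rw [show p - 1 + 1 = p by omega]
    rw [this, sum_range_succ']
    rw [sum_congr rfl (fun k hk => choose_eq_pi hp hB (k := k) (by rw [mem_range] at hk; omega))]
    simp
    ring
  have h2 : ∑ k ∈ range (p - 1), (-1) ^ k * pi p B (k + 1) = - pH p B N := by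
    rw [show p - 1 = 2 * N by omega, sum_range_two_mul]
    have e2 : pH p B (2 * N) = ∑ l ∈ range N, pi p B (2 * l + 1) + ∑ l ∈ range N, pi p B (2 * l + 2) := by
      unfold pH
      rw [sum_range_two_mul]
    have e3 := sum_pi_even hB (m := N) (by omega)
    have e4 := pH_pred hp h3 hB
    rw [show p - 1 = 2 * N by omega] at e4
    have f1 : ∑ l ∈ range N, (-1 : B) ^ (2 * l) * pi p B (2 * l + 1) = ∑ l ∈ range N, pi p B (2 * l + 1) := by
      apply sum_congr rfl
      intro l _
      rw [pow_mul]; simp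
    have f2 : ∑ l ∈ range N, (-1 : B) ^ (2 * l + 1) * pi p B (2 * l + 1 + 1) = - ∑ l ∈ range N, pi p B (2 * l + 2) := by
      rw [← sum_neg_distrib]
      apply sum_congr rfl
      intro l _
      rw [pow_succ, pow_mul]; simp
    rw [f1, f2]
    linear_combination (-1 : B) * e3 - e2 + e4
  obtain ⟨c, hc⟩ := exists_fermat (B := B) hp 2 (not_dvd_of_lt (by omega) (by omega))
  push_cast at hc
  have h4 : (4 : B) ^ (p - 1) = (2 ^ (p - 1)) ^ 2 := by rw [← pow_mul, mul_comm, pow_mul]; norm_num
  have h5 : (2 : B) ^ p = 2 * 2 ^ (p - 1) := by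
    conv_lhs => rw [show p = (p - 1) + 1 by omega, pow_succ]
    ring
  rw [h5, h2, hc] at h1
  rw [h4, hc]
  have h6 := p_mul_p hB
  linear_combination (-1 : B) * h1 - c ^ 2 * h6

/-- A4 -/
theorem a4 : A4Statement := by
  intro p n N hp h3 hn hN B _ hB s hs
  have hev := even_of_prime hp h3 hn
  have hpB : (p : B) = 3 * n + 1 := by rw [hn]; push_cast; ring
  obtain ⟨m, hm⟩ : ∃ m, n = 2 * m := by
    obtain ⟨m, hm⟩ := hev
    exact ⟨m, by omega⟩
  have hNm : N = 3 * m := by omega
  have hu3 : IsUnit (3 : B) := by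
    have := isUnit_natCast_of_lt hB (l := 3) (by omega) (by omega)
    simpa using this
  obtain ⟨t, ht⟩ : ∃ t : B, 3 * t = 1 := hu3.exists_right_inv
  have hD := prod_D hp h3 hn (m := m) (by omega) hB ht
  rw [show n + 1 + m = N + 1 by omega, show n + m = N by omega] at hD
  set D := ∏ i ∈ (range (N + 1)).erase n, (3 * (i : B) + 1) with hDdef
  have hpf := pf_ring (B := B) N
  have hnmem : n ∈ range (N + 1) := by rw [mem_range]; omega
  rw [← add_sum_erase _ _ hnmem] at hpf
  have hsum : ∑ j ∈ (range (N + 1)).erase n, ((N.choose j : B) * (-1) ^ j) * ∏ i ∈ (range (N + 1)).erase j, (3 * (i : B) + 1)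
      = (p : B) * D * ∑ j ∈ (range (N + 1)).erase n, s j := by
    rw [mul_sum]
    apply sum_congr rfl
    intro j hj
    rw [← hs j hj]
    have hjn : j ≠ n := ne_of_mem_erase hj
    have hn' : n ∈ (range (N + 1)).erase j := mem_erase.mpr ⟨hjn.symm, hnmem⟩
    rw [hDdef, ← mul_prod_erase _ _ hn', ← mul_prod_erase _ _ hj, erase_right_comm, ← hpB]
    ring
  rw [hsum, hev.neg_one_pow, mul_one, ← hDdef] at hpf
  have hfac : (N.factorial : B) = (N.choose n : B) * ((n.factorial : B) * (m.factorial : B)) := by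
    have := Nat.choose_mul_factorial_mul_factorial (n := N) (k := n) (by omega)
    rw [show N - n = m by omega] at this
    rw [← this]; push_cast; ring
  rw [hfac, hD] at hpf
  have hU : IsUnit ((3 : B) ^ N * ((n.factorial : B) * (m.factorial : B))) :=
    (hu3.pow N).mul ((isUnit_factorial hp hB (by omega)).mul (isUnit_factorial hp hB (by omega)))
  set S := ∑ j ∈ (range (N + 1)).erase n, s j with hSdef
  have hmain : (p : B) * S = - ((N.choose n : B) * (t * (pH p B m - pH p B n))) := by
    apply hU.mul_left_cancel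
    have k1 := p_mul_pH hB m
    have k2 := p_mul_pH hB n
    linear_combination hpf - 3 ^ N * ((n.factorial : B) * (m.factorial : B)) * t * S * (k1 - k2)
  have hth := pH_three hp h3 (m := m) (by omega) hB
  have hhalf := pH_half hp h3 hN hB
  rw [hNm] at hhalf
  rw [← hm] at hth
  have hfin : pH p B n - pH p B m = 4 ^ (p - 1) - 1 := by
    linear_combination hth + hhalf
  rw [← hfin]
  linear_combination 3 * hmain - (N.choose n : B) * (pH p B m - pH p B n) * ht

end Pool.Agent.Lib.MP_748296_nt.H40
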